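import Mathlib

/-!
# Project FAM, piece P2: roots of the polynomials of a finite dimensional space have bounded height
-/

namespace Pool.Agent.Helper26.FAM

open Polynomial

universe u

private theorem sum_le {L : Type u} [Field L] {v : AbsoluteValue L ℝ} (hv : IsNonarchimedean v)
    {ι : Type} (s : Finset ι) (f : ι → L) (M : ℝ) (hM : 0 ≤ M) (h : ∀ j ∈ s, v (f j) ≤ M) :
    v (∑ j ∈ s, f j) ≤ M := by
  classical
  induction s using Finset.induction_on with
  | empty => simpa using hM
  | insert a s ha ih =>
    rw [Finset.sum_insert ha]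
    refine (hv _ _).trans (max_le (h a (Finset.mem_insert_self a s)) ?_)
    exact ih fun j hj => h j (Finset.mem_insert_of_mem hj)

private theorem root_local {L : Type u} [Field L] {v : AbsoluteValue L ℝ}
    (hv : IsNonarchimedean v) (g : L[X]) (hg : g ≠ 0) (M : ℝ) (hM : ∀ j, v (g.coeff j) ≤ M)
    (x : L) (hx : g.eval x = 0) : max (v x) 1 ≤ M / v g.leadingCoeff := by
  have hl : 0 < v g.leadingCoeff := v.pos (leadingCoeff_ne_zero.2 hg)
  have hlM : v g.leadingCoeff ≤ M := hM _
  have hM0 : 0 ≤ M := hl.le.trans hlM
  rw [le_div_iff₀ hl]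
  rcases le_or_gt (v x) 1 with h1 | h1
  · rw [max_eq_right h1, one_mul]
    exact hlM
  · rw [max_eq_left h1.le]
    have hn : 0 < g.natDegree := by
      rw [Nat.pos_iff_ne_zero]
      intro h0
      rw [Polynomial.eq_C_of_natDegree_eq_zero h0, eval_C] at hx
      apply hg
      rw [Polynomial.eq_C_of_natDegree_eq_zero h0, hx, C_0]
    obtain ⟨m, hm⟩ : ∃ m, g.natDegree = m + 1 := ⟨g.natDegree - 1, by omega⟩
    have e1 : g.leadingCoeff * x ^ (m + 1) = -∑ j ∈ Finset.range (m + 1), g.coeff j * x ^ j := by
      rw [Polynomial.eval_eq_sum_range, hm, Finset.sum_range_succ] at hx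
      rw [Polynomial.leadingCoeff, hm]
      exact eq_neg_of_add_eq_zero_right hx
    have e2 : v (g.leadingCoeff * x ^ (m + 1)) ≤ M * v x ^ m := by
      rw [e1, AbsoluteValue.map_neg]
      refine sum_le hv _ _ _ (by positivity) fun j hj => ?_
      rw [map_mul, map_pow]
      have hjm : j ≤ m := Nat.lt_succ_iff.1 (Finset.mem_range.1 hj)
      exact mul_le_mul (hM j) (pow_le_pow_right₀ h1.le hjm) (by positivity) hM0
    rw [map_mul, map_pow, pow_succ] at e2
    have hp : 0 < v x ^ m := pow_pos (by linarith) m
    have e3 : v x * v g.leadingCoeff * v x ^ m ≤ M * v x ^ m := by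
      calc v x * v g.leadingCoeff * v x ^ m = v g.leadingCoeff * (v x ^ m * v x) := by ring
        _ ≤ M * v x ^ m := e2
    exact le_of_mul_le_mul_right e3 hp

/-- P2: roots of the polynomials of a finite dimensional space have bounded height. -/
theorem root_bound {k L : Type u} [Field k] [Field L] [Algebra k L]
    [inst : Height.AdmissibleAbsValues L] (harch : inst.archAbsVal = 0)
    (hk : ∀ v ∈ inst.nonarchAbsVal, ∀ a : k, a ≠ 0 → v (algebraMap k L a) = 1)
    (W : Submodule k L[X]) (hW : W.FG) :
    ∃ B : ℝ, ∀ g ∈ W, g ≠ 0 → ∀ x : L, g.eval x = 0 → Height.mulHeight₁ x ≤ B := by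
  classical
  obtain ⟨S, rfl⟩ := hW
  set A : Finset L := S.biUnion fun g => g.support.image g.coeff with hA
  have hAne : ∀ a ∈ A, a ≠ 0 := by
    intro a ha
    rw [hA, Finset.mem_biUnion] at ha
    obtain ⟨g, _, hg⟩ := ha
    rw [Finset.mem_image] at hg
    obtain ⟨j, hj, rfl⟩ := hg
    exact Polynomial.mem_support_iff.1 hj
  rcases A.eq_empty_or_nonempty with hAe | hAn
  · refine ⟨0, fun g hg hg0 => ?_⟩
    exfalso
    apply hg0
    have hS : ∀ s ∈ S, s = 0 := by
      intro s hs
      by_contra hne
      have : s.leadingCoeff ∈ A := by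
        rw [hA, Finset.mem_biUnion]
        exact ⟨s, hs, Finset.mem_image.2 ⟨s.natDegree, Polynomial.natDegree_mem_support_of_nonzero hne,
          rfl⟩⟩
      rw [hAe] at this
      exact absurd this (Finset.notMem_empty _)
    have hle : Submodule.span k (S : Set L[X]) ≤ ⊥ := by
      rw [Submodule.span_le]
      intro s hs
      exact hS s hs
    exact (Submodule.mem_bot k).1 (hle hg)
  · set β : inst.nonarchAbsVal → ℝ := fun v => A.sup' hAn v.val with hβ
    have hβ0 : ∀ v, 0 ≤ β v := by
      intro v
      obtain ⟨a, ha⟩ := hAn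
      exact (v.val.nonneg a).trans (Finset.le_sup' v.val ha)
    have hcoef : ∀ v : inst.nonarchAbsVal, ∀ g ∈ Submodule.span k (S : Set L[X]), ∀ j,
        v.val (g.coeff j) ≤ β v := by
      intro v g hg
      induction hg using Submodule.span_induction with
      | mem s hs =>
        intro j
        by_cases h0 : s.coeff j = 0
        · rw [h0, map_zero]
          exact hβ0 v
        · refine Finset.le_sup' v.val ?_
          rw [hA, Finset.mem_biUnion]
          exact ⟨s, hs, Finset.mem_image.2 ⟨j, Polynomial.mem_support_iff.2 h0, rfl⟩⟩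
      | zero =>
        intro j
        rw [Polynomial.coeff_zero, map_zero]
        exact hβ0 v
      | add a b _ _ ha hb =>
        intro j
        rw [Polynomial.coeff_add]
        exact (inst.isNonarchimedean v.val v.2 _ _).trans (max_le (ha j) (hb j))
      | smul c a _ ha =>
        intro j
        rw [Polynomial.coeff_smul, Algebra.smul_def, map_mul]
        by_cases hc : c = 0
        · rw [hc, map_zero, map_zero, zero_mul]
          exact hβ0 v
        · rw [hk v.val v.2 c hc, one_mul]
          exact ha j
    refine ⟨∏ᶠ v : inst.nonarchAbsVal, β v, fun g hg hg0 x hx => ?_⟩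
    have hl : g.leadingCoeff ≠ 0 := leadingCoeff_ne_zero.2 hg0
    -- the finite supports
    have f1 : (Function.mulSupport fun v : inst.nonarchAbsVal => max (v.val x) 1).Finite := by
      by_cases hx0 : x = 0
      · have : (fun v : inst.nonarchAbsVal => max (v.val x) 1) = fun _ => 1 := by
          funext v
          rw [hx0, map_zero]
          exact max_eq_right zero_le_one
        rw [this, Function.mulSupport_fun_one]
        exact Set.finite_empty
      · refine Set.Finite.subset (inst.hasFiniteMulSupport hx0) ?_
        intro v hv hv1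
        apply hv
        show max (v.val x) 1 = 1
        have : v.val x = 1 := hv1
        rw [this, max_self]
    have f2 : (Function.mulSupport β).Finite := by
      have hfin : (⋃ a ∈ A, Function.mulSupport fun v : inst.nonarchAbsVal => v.val a).Finite :=
        A.finite_toSet.biUnion fun a ha => inst.hasFiniteMulSupport (hAne a ha)
      refine hfin.subset ?_
      intro v hv
      by_contra hcon
      apply hv
      simp only [Set.mem_iUnion, not_exists, Function.mem_mulSupport, not_not] at hcon
      show A.sup' hAn v.val = 1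
      refine le_antisymm (Finset.sup'_le _ _ fun a ha => (hcon a ha).le) ?_
      obtain ⟨a, ha⟩ := hAn
      rw [← hcon a ha]
      exact Finset.le_sup' v.val ha
    have f3 : (Function.mulSupport fun v : inst.nonarchAbsVal => v.val g.leadingCoeff).Finite :=
      inst.hasFiniteMulSupport hl
    have hpf : ∏ᶠ v : inst.nonarchAbsVal, v.val g.leadingCoeff = 1 := by
      have h := inst.product_formula hl
      rw [harch] at h
      simpa using h
    have hH : Height.mulHeight₁ x = ∏ᶠ v : inst.nonarchAbsVal, max (v.val x) 1 := by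
      rw [Height.mulHeight₁_eq, harch]
      simp
    set T : Finset inst.nonarchAbsVal := f1.toFinset ∪ f2.toFinset ∪ f3.toFinset with hT
    have s1 : (Function.mulSupport fun v : inst.nonarchAbsVal => max (v.val x) 1) ⊆ T := by
      intro v hv
      rw [hT, Finset.mem_coe, Finset.mem_union, Finset.mem_union]
      exact Or.inl (Or.inl (f1.mem_toFinset.2 hv))
    have s2 : (Function.mulSupport β) ⊆ T := by
      intro v hv
      rw [hT, Finset.mem_coe, Finset.mem_union, Finset.mem_union]
      exact Or.inl (Or.inr (f2.mem_toFinset.2 hv))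
    have s3 : (Function.mulSupport fun v : inst.nonarchAbsVal => v.val g.leadingCoeff) ⊆ T := by
      intro v hv
      rw [hT, Finset.mem_coe, Finset.mem_union, Finset.mem_union]
      exact Or.inr (f3.mem_toFinset.2 hv)
    rw [finprod_eq_prod_of_mulSupport_subset _ s3] at hpf
    rw [hH, finprod_eq_prod_of_mulSupport_subset _ s1, finprod_eq_prod_of_mulSupport_subset _ s2]
    calc ∏ v ∈ T, max (v.val x) 1 ≤ ∏ v ∈ T, (β v / v.val g.leadingCoeff) := by
          refine Finset.prod_le_prod (fun v _ => ?_) fun v _ => ?_
          · exact zero_le_one.trans (le_max_right _ _)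
          · exact root_local (inst.isNonarchimedean v.val v.2) g hg0 (β v) (hcoef v g hg) x hx
      _ = (∏ v ∈ T, β v) / ∏ v ∈ T, v.val g.leadingCoeff := Finset.prod_div_distrib _ _
      _ = ∏ v ∈ T, β v := by rw [hpf, div_one]

end Pool.Agent.Helper26.FAM
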